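import Pool.Agent.Helper68.Fam.Goals

/-!
# MP_18808e_co, packet FAM-MIN1: the nabla-Y descendants of `K_(n+5)` are minor-minimal
-/

set_option autoImplicit false

namespace NApexGraphs.Fam.Helper70

open SimpleGraph NApexGraphs NApexGraphs.Dom NApexGraphs.Fam

section
variable {V : Type} [Fintype V] [DecidableEq V]

omit [Fintype V] in
/-- three of four points which do not form a member of `F` -/
theorem choose3 {F : Finset (Finset V)} (hF : Tri (⊤ : SimpleGraph V) F) (W : Finset V)
    (hW : 4 ≤ W.card) : ∃ E ⊆ W, E.card = 3 ∧ E ∉ F := by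
  obtain ⟨W', hW', h4⟩ := Finset.exists_subset_card_eq hW
  obtain ⟨a, ha, b, hb, hab⟩ := Finset.one_lt_card.1 (by omega : 1 < W'.card)
  have hca : (W'.erase a).card = 3 := by rw [Finset.card_erase_of_mem ha]; omega
  have hcb : (W'.erase b).card = 3 := by rw [Finset.card_erase_of_mem hb]; omega
  by_contra hcon
  have h1 : W'.erase a ∈ F := by
    by_contra h
    exact hcon ⟨_, (Finset.erase_subset _ _).trans hW', hca, h⟩
  have h2 : W'.erase b ∈ F := by
    by_contra h
    exact hcon ⟨_, (Finset.erase_subset _ _).trans hW', hcb, h⟩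
  have hne : W'.erase a ≠ W'.erase b := by
    intro h
    have h3 : a ∈ W'.erase b := Finset.mem_erase.2 ⟨hab, ha⟩
    rw [← h] at h3
    exact Finset.notMem_erase _ _ h3
  have h3 := hF.pair _ h1 _ h2 hne
  have h4 : (W'.erase a) ∩ (W'.erase b) = (W'.erase a).erase b := by
    ext z
    simp only [Finset.mem_inter, Finset.mem_erase]
    tauto
  rw [h4, Finset.card_erase_of_mem (Finset.mem_erase.2 ⟨hab.symm, hb⟩), hca] at h3
  omega

/-- the points outside of `P` -/
def ptX (F : Finset (Finset V)) (P : Finset V) : Finset (V ⊕ {T // T ∈ F}) :=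
  Pᶜ.map Function.Embedding.inl

theorem inl_mem_ptX {F : Finset (Finset V)} {P : Finset V} {x : V} :
    Sum.inl x ∈ ptX F P ↔ x ∉ P := by
  simp [ptX]

theorem inr_notMem_ptX {F : Finset (Finset V)} {P : Finset V} (T : {T // T ∈ F}) :
    Sum.inr T ∉ ptX F P := by
  simp [ptX]

theorem card_ptX {F : Finset (Finset V)} {P : Finset V} :
    (ptX F P).card = Fintype.card V - P.card := by
  rw [ptX, Finset.card_map, Finset.card_compl]

omit [Fintype V] in
theorem low_top {E : Finset V} (hE : E.card = 3) {x : V} (hx : x ∈ E) :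
    Low (⊤ : SimpleGraph V) (E : Set V) x := by
  intro a ha b hb c hc hxa hxb hxc
  by_contra hcon
  push Not at hcon
  obtain ⟨h1, h2, h3⟩ := hcon
  have ha' : a ∈ E.erase x := Finset.mem_erase.2 ⟨hxa.ne.symm, ha⟩
  have hb' : b ∈ E.erase x := Finset.mem_erase.2 ⟨hxb.ne.symm, hb⟩
  have hc' : c ∈ E.erase x := Finset.mem_erase.2 ⟨hxc.ne.symm, hc⟩
  have hsub : ({a, b, c} : Finset V) ⊆ E.erase x := by
    intro z hz
    simp only [Finset.mem_insert, Finset.mem_singleton] at hz
    rcases hz with rfl | rfl | rfl <;> assumption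
  have h4 := Finset.card_le_card hsub
  have h5 : ({a, b, c} : Finset V).card = 3 := Finset.card_eq_three.2 ⟨a, b, c, h1, h2, h3, rfl⟩
  rw [Finset.card_erase_of_mem hx] at h4
  omega

omit [Fintype V] [DecidableEq V] in
theorem conn_top {E : Finset V} (hE : E.Nonempty) : Conn (⊤ : SimpleGraph V) (E : Set V) := by
  refine ⟨hE, ?_⟩
  rintro A - ⟨x, hx⟩ hcl y hy
  by_cases h : x = y
  · exact h ▸ hx
  · exact hcl x hx y hy h

theorem plane (hPL : Goals.PLANE) {F : Finset (Finset V)} (hF : Tri (⊤ : SimpleGraph V) F)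
    (H : SimpleGraph (V ⊕ {T // T ∈ F})) (X : Finset (V ⊕ {T // T ∈ F})) (u v : V)
    (E : Finset V) (hK : Keep ⊤ F H X u v) (hu : u ∉ E) (hv : v ∉ E) (hE : E.card = 3)
    (hEF : E ∉ F) (hX : ∀ x, Sum.inl x ∈ X ↔ ¬ (x ∈ E ∨ x = u ∨ x = v)) :
    Pl H ((X : Set (V ⊕ {T // T ∈ F}))ᶜ) := by
  refine hPL V ⊤ F H X u v E hF hK hu hv ?_ ?_ ?_ ?_ ?_
  · intro x hx h
    exact (hX x).1 h (Or.inl hx)
  · intro x hx
    by_contra h
    exact hx ((hX x).2 h)
  · intro T hT
    by_contra h
    push Not at h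
    have h1 := hF.card T hT
    have h2 : T ∩ E = T := Finset.eq_of_subset_of_card_le Finset.inter_subset_left (by omega)
    have h3 : T = E := Finset.eq_of_subset_of_card_le (Finset.inter_eq_left.1 h2) (by omega)
    exact hEF (h3 ▸ hT)
  · intro x hx
    exact low_top hE hx
  · exact conn_top (Finset.card_pos.1 (by omega))

/-- for two poles `u ≠ v` -/
theorem exP (hPL : Goals.PLANE) {F : Finset (Finset V)} (hF : Tri (⊤ : SimpleGraph V) F)
    (hc : 6 ≤ Fintype.card V) {u v : V} (huv : u ≠ v) : ∃ P : Finset V,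
    P.card = 5 ∧ ∀ (H : SimpleGraph (V ⊕ {T // T ∈ F})) (X : Finset (V ⊕ {T // T ∈ F})),
      (∀ x, Sum.inl x ∈ X ↔ x ∉ P) → Keep ⊤ F H X u v →
      Pl H ((X : Set (V ⊕ {T // T ∈ F}))ᶜ) := by
  have h1 : 4 ≤ ((Finset.univ.erase u).erase v).card := by
    rw [Finset.card_erase_of_mem (Finset.mem_erase.2 ⟨huv.symm, Finset.mem_univ _⟩),
      Finset.card_erase_of_mem (Finset.mem_univ _), Finset.card_univ]
    omega
  obtain ⟨E, hE, hE3, hEF⟩ := choose3 hF _ h1
  have hu : u ∉ E := fun h => (Finset.mem_erase.1 (Finset.mem_of_mem_erase (hE h))).1 rfl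
  have hv : v ∉ E := fun h => (Finset.mem_erase.1 (hE h)).1 rfl
  refine ⟨insert u (insert v E), ?_, ?_⟩
  · rw [Finset.card_insert_of_notMem, Finset.card_insert_of_notMem hv, hE3]
    simp only [Finset.mem_insert, not_or]
    exact ⟨huv, hu⟩
  · intro H X hX hK
    refine plane hPL hF H X u v E hK hu hv hE3 hEF fun x => ?_
    rw [hX x]
    simp only [Finset.mem_insert]
    tauto

end

theorem gMIN1 : Goals.MINC → Goals.PLANE → Goals.KEEPS → Goals.NOT1 → Goals.MIN1 := by
  intro hMC hPL hKE hNO n F hn hF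
  have hcard : Fintype.card (Fin (n + 5)) = n + 5 := Fintype.card_fin _
  have hc6 : 6 ≤ Fintype.card (Fin (n + 5)) := by rw [hcard]; omega
  -- deletion of an edge between a point and a triple
  have delT : ∀ (z : Fin (n + 5)) (T : {T // T ∈ F}), z ∈ T.1 →
      ∃ X : Finset (Fin (n + 5) ⊕ {T // T ∈ F}), X.card ≤ n ∧
      Pl ((YG (⊤ : SimpleGraph (Fin (n + 5))) F).deleteEdges {s(Sum.inl z, Sum.inr T)})
        ((X : Set (Fin (n + 5) ⊕ {T // T ∈ F}))ᶜ) := by
    intro z T hz
    have h3 := hF.card T.1 T.2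
    obtain ⟨x, hx, hxz⟩ := Finset.exists_mem_ne (by omega : 1 < T.1.card) z
    obtain ⟨P, hP, hPl⟩ := exP hPL hF hc6 hxz.symm
    refine ⟨ptX F P, ?_, ?_⟩
    · rw [card_ptX, hcard]; omega
    · refine hPl _ _ (fun x => inl_mem_ptX) ?_
      exact (hKE _ ⊤ F hF (ptX F P)).2.1 T z x hz hx hxz.symm inr_notMem_ptX
  -- contraction of an edge between a point and a triple
  have conT : ∀ (z : Fin (n + 5)) (T : {T // T ∈ F}), z ∈ T.1 →
      ∃ X : Finset (Fin (n + 5) ⊕ {T // T ∈ F}), Sum.inr T ∈ X ∧ X.card ≤ n + 1 ∧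
      Pl (addN (YG (⊤ : SimpleGraph (Fin (n + 5))) F) (Sum.inr T) (Sum.inl z))
        ((X : Set (Fin (n + 5) ⊕ {T // T ∈ F}))ᶜ) := by
    intro z T hz
    have h3 := hF.card T.1 T.2
    have h2 : (T.1.erase z).card = 2 := by rw [Finset.card_erase_of_mem hz]; omega
    obtain ⟨x, t, hxt, he⟩ := Finset.card_eq_two.1 h2
    have hx : x ∈ T.1.erase z := by rw [he]; simp
    have ht : t ∈ T.1.erase z := by rw [he]; simp
    obtain ⟨hx1, hx2⟩ := Finset.mem_erase.1 hx
    obtain ⟨ht1, ht2⟩ := Finset.mem_erase.1 ht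
    obtain ⟨P, hP, hPl⟩ := exP hPL hF hc6 hxt
    refine ⟨insert (Sum.inr T) (ptX F P), Finset.mem_insert_self _ _, ?_, ?_⟩
    · rw [Finset.card_insert_of_notMem (inr_notMem_ptX T), card_ptX, hcard]; omega
    · refine hPl _ _ (fun x => ?_) ?_
      · rw [Finset.mem_insert, inl_mem_ptX]
        simp
      · refine (hKE _ ⊤ F hF (insert (Sum.inr T) (ptX F P))).2.2.1 T z x t hz hx2 ht2 hx1.symm
          ht1.symm hxt fun T' => ?_
        rw [Finset.mem_insert]
        constructor
        · rintro (h | h)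
          · exact Sum.inr_injective h
          · exact absurd h (inr_notMem_ptX T')
        · rintro rfl
          exact Or.inl rfl
  refine hMC _ _ n (hNO n F hF) ?_ ?_ ?_
  · rintro (x | T)
    · obtain ⟨y, hy⟩ : ∃ y : Fin (n + 5), y ≠ x := by
        obtain ⟨y, -, hy⟩ := Finset.exists_mem_ne (s := (Finset.univ : Finset (Fin (n + 5))))
          (by rw [Finset.card_univ]; omega) x
        exact ⟨y, hy⟩
      by_cases h : ∃ T ∈ F, x ∈ T ∧ y ∈ T
      · obtain ⟨T, hT, hxT, -⟩ := h
        exact ⟨Sum.inr ⟨T, hT⟩, hxT⟩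
      · push Not at h
        exact ⟨Sum.inl y, hy.symm, fun T hT h' => h T hT h'.1 h'.2⟩
    · obtain ⟨z, hz⟩ := Finset.card_pos.1 (by rw [hF.card T.1 T.2]; omega : 0 < T.1.card)
      exact ⟨Sum.inl z, hz⟩
  · rintro (x | T) (y | T') hxy
    · obtain ⟨hne, hno⟩ := hxy
      obtain ⟨P, hP, hPl⟩ := exP hPL hF hc6 hne.ne
      refine ⟨ptX F P, ?_, ?_⟩
      · rw [card_ptX, hcard]; omega
      · refine hPl _ _ (fun x => inl_mem_ptX) ?_
        exact (hKE _ ⊤ F hF (ptX F P)).1 x y hno inr_notMem_ptX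
    · exact delT x T' hxy
    · have h := delT y T hxy
      rw [Sym2.eq_swap]
      exact h
    · exact hxy.elim
  · rintro (x | T) (y | T') hxy
    · left
      obtain ⟨hne, -⟩ := hxy
      have hne' : x ≠ y := hne.ne
      -- four other points
      have h1 : 4 ≤ ((Finset.univ.erase x).erase y).card := by
        rw [Finset.card_erase_of_mem (Finset.mem_erase.2 ⟨hne'.symm, Finset.mem_univ _⟩),
          Finset.card_erase_of_mem (Finset.mem_univ _), Finset.card_univ]
        omega
      obtain ⟨W, hW, hW4⟩ := Finset.exists_subset_card_eq h1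
      obtain ⟨E, hE, hE3, hEF⟩ := choose3 hF W (by omega)
      obtain ⟨u, huW, huE⟩ : ∃ u ∈ W, u ∉ E := by
        by_contra hcon
        push Not at hcon
        have := Finset.card_le_card (fun z hz => hcon z hz : W ⊆ E)
        omega
      have hx : x ∉ W := fun h => (Finset.mem_erase.1 (Finset.mem_of_mem_erase (hW h))).1 rfl
      have hy : y ∉ W := fun h => (Finset.mem_erase.1 (hW h)).1 rfl
      have hEu : ∀ z, z ∈ W ↔ z ∈ E ∨ z = u := by
        have h2 : insert u E = W := by
          apply Finset.eq_of_subset_of_card_le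
          · intro z hz
            rcases Finset.mem_insert.1 hz with rfl | hz
            · exact huW
            · exact hE hz
          · rw [Finset.card_insert_of_notMem huE]; omega
        intro z
        rw [← h2, Finset.mem_insert, or_comm]
      refine ⟨ptX F W, inl_mem_ptX.2 hx, ?_, ?_⟩
      · rw [card_ptX, hcard]; omega
      · refine plane hPL hF _ _ u u E ?_ huE huE hE3 hEF fun z => ?_
        · exact (hKE _ ⊤ F hF (ptX F W)).2.2.2 x y u u (inl_mem_ptX.2 hx) (inl_mem_ptX.2 hy)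
            (fun h => inl_mem_ptX.1 h huW) (fun h => inl_mem_ptX.1 h huW) inr_notMem_ptX
            (Or.inl rfl)
        · rw [inl_mem_ptX, hEu z]
          tauto
    · right
      exact conT x T' hxy
    · left
      exact conT y T hxy
    · exact hxy.elim

end NApexGraphs.Fam.Helper70
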